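import Mathlib
import Pool.Agent.Helper82_NIB.Stmts

/-!
# NIB: supports of the arrays (modules ASP1 and ASP2)
-/

set_option autoImplicit false
set_option linter.unusedSectionVars false

open Finset Matrix

namespace Pool.Agent.NIB.H46

/-- Double counting bound. -/
lemma cnt_le {α β : Type} [Finite α] [Finite β] (S : Set α) (R : α → β → Prop) (m n : ℕ)
    (hS : S.ncard ≤ m) (hR : ∀ a ∈ S, ({b | R a b} : Set β).ncard ≤ n) (T : Set β)
    (hT : ∀ b ∈ T, ∃ a ∈ S, R a b) : T.ncard ≤ m * n := by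
  classical
  have := Fintype.ofFinite α
  have := Fintype.ofFinite β
  have h1 : T ⊆ ↑(S.toFinset.biUnion fun a => ({b | R a b} : Set β).toFinset) := by
    intro b hb
    obtain ⟨a, ha, hab⟩ := hT b hb
    rw [Finset.mem_coe, Finset.mem_biUnion]
    exact ⟨a, by simpa using ha, by simpa using hab⟩
  have h2 := Set.ncard_le_ncard h1 (Finset.finite_toSet _)
  rw [Set.ncard_coe_finset] at h2
  have h3 : (S.toFinset.biUnion fun a => ({b | R a b} : Set β).toFinset).card ≤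
      S.toFinset.card * n := by
    refine Finset.card_biUnion_le_card_mul _ _ _ fun a ha => ?_
    rw [← Set.ncard_eq_toFinset_card']
    exact hR a (by simpa using ha)
  rw [← Set.ncard_eq_toFinset_card'] at h3
  exact (h2.trans h3).trans (Nat.mul_le_mul_right _ hS)

lemma mulVec_ne {W : Type} [Fintype W] {A : Matrix W W ℝ} {f : W → ℝ} {a : W}
    (h : (A *ᵥ f) a ≠ 0) : ∃ z, A a z ≠ 0 ∧ f z ≠ 0 := by
  by_contra hc
  push Not at hc
  refine h (Finset.sum_eq_zero fun z _ => ?_)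
  by_cases hz : A a z = 0
  · simp [hz]
  · simp [hc z hz]

lemma dl_ne {W : Type} [Fintype W] [DecidableEq W] {w z : W} (h : dl w z ≠ 0) : z = w := by
  by_contra hc
  exact h (by simp [dl, hc])

lemma mu_ne {W : Type} [Fintype W] [DecidableEq W] {A : Matrix W W ℝ} {gh : W → W → ℝ} {w z : W}
    (h : mu A gh w z ≠ 0) : gh w z ≠ 0 ∨ (∃ w', A w w' ≠ 0 ∧ gh w' z ≠ 0) ∨ z = w := by
  by_contra hc
  push Not at hc
  obtain ⟨h1, h2, h3⟩ := hc
  refine h ?_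
  have h4 : ∑ w', A w w' * gh w' z = 0 := Finset.sum_eq_zero fun z' _ => by
    by_cases hz : A w z' = 0
    · simp [hz]
    · simp [h2 z' hz]
  have h5 : dl w z = 0 := by simp [dl, h3]
  simp [mu, h1, h4, h5]

section

variable {V : Type} [Fintype V] [DecidableEq V]

/-- Number of arcs at a node. -/
lemma arcs_at {x : V → V → ℝ} {kap : ℕ} (h1 : ∀ u, ({v | x u v ≠ 0} : Set V).ncard ≤ kap)
    (h2 : ∀ v, ({u | x u v ≠ 0} : Set V).ncard ≤ kap) (w : V × Bool) :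
    ({a | x a.1 a.2 ≠ 0 ∧ atn w a} : Set (V × V)).ncard ≤ kap := by
  rcases w with ⟨w, _ | _⟩
  · have h3 : ({a | x a.1 a.2 ≠ 0 ∧ atn (w, false) a} : Set (V × V)) ⊆
        (fun u => (u, w)) '' {u | x u w ≠ 0} := by
      rintro ⟨u, v⟩ ⟨ha, hb⟩
      rcases hb with hb | hb
      · simp at hb
      · simp only [Prod.mk.injEq, and_true] at hb
        subst hb
        exact ⟨u, ha, rfl⟩
    exact ((Set.ncard_le_ncard h3 (Set.toFinite _)).trans (Set.ncard_image_le (Set.toFinite _))).trans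
      (h2 w)
  · have h3 : ({a | x a.1 a.2 ≠ 0 ∧ atn (w, true) a} : Set (V × V)) ⊆
        (fun v => (w, v)) '' {v | x w v ≠ 0} := by
      rintro ⟨u, v⟩ ⟨ha, hb⟩
      rcases hb with hb | hb
      · simp only [Prod.mk.injEq, and_true] at hb
        subst hb
        exact ⟨v, ha, rfl⟩
      · simp at hb
    exact ((Set.ncard_le_ncard h3 (Set.toFinite _)).trans (Set.ncard_image_le (Set.toFinite _))).trans
      (h1 w)

/-- Arcs touching a set of nodes. -/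
lemma arcs_touch {x : V → V → ℝ} {kap : ℕ} (h1 : ∀ u, ({v | x u v ≠ 0} : Set V).ncard ≤ kap)
    (h2 : ∀ v, ({u | x u v ≠ 0} : Set V).ncard ≤ kap) (f : V × Bool → ℝ) (m : ℕ)
    (hf : ({w | f w ≠ 0} : Set (V × Bool)).ncard ≤ m) (T : Set (V × V))
    (hT : ∀ a ∈ T, x a.1 a.2 ≠ 0 ∧ (f (a.1, true) ≠ 0 ∨ f (a.2, false) ≠ 0)) :
    T.ncard ≤ m * kap := by
  refine cnt_le {w | f w ≠ 0} (fun w a => x a.1 a.2 ≠ 0 ∧ atn w a) m kap hf
    (fun w _ => arcs_at h1 h2 w) T fun a ha => ?_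
  obtain ⟨h3, h4⟩ := hT a ha
  rcases h4 with h4 | h4
  · exact ⟨_, h4, h3, Or.inl rfl⟩
  · exact ⟨_, h4, h3, Or.inr rfl⟩

lemma grad_ne {f : V × Bool → ℝ} {u v : V} (h : grad f u v ≠ 0) :
    f (u, true) ≠ 0 ∨ f (v, false) ≠ 0 := by
  by_contra hc
  push Not at hc
  exact h (by simp [grad, hc.1, hc.2])

lemma plu_ne {f : V × Bool → ℝ} {u v : V} (h : plu f u v ≠ 0) :
    f (u, true) ≠ 0 ∨ f (v, false) ≠ 0 := by
  by_contra hc
  push Not at hc
  exact h (by simp [plu, hc.1, hc.2])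

/-- Support of `A f`. -/
lemma supp_mulVec {x : V → V → ℝ} {kap : ℕ} (h1 : ∀ u, ({v | x u v ≠ 0} : Set V).ncard ≤ kap)
    (h2 : ∀ v, ({u | x u v ≠ 0} : Set V).ncard ≤ kap) (f : V × Bool → ℝ) (m : ℕ)
    (hf : ({w | f w ≠ 0} : Set (V × Bool)).ncard ≤ m) :
    ({w | (mat x *ᵥ f) w ≠ 0} : Set (V × Bool)).ncard ≤ m * kap := by
  refine cnt_le {w | f w ≠ 0} (fun w a => mat x w a ≠ 0) m kap hf
    (fun w _ => mat_row_ncard h1 h2 w) _ fun a ha => ?_
  obtain ⟨z, hz1, hz2⟩ := mulVec_ne ha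
  exact ⟨z, hz2, by rw [mat_symm]; exact hz1⟩

lemma supp_dl (w : V × Bool) : ({z | dl w z ≠ 0} : Set (V × Bool)).ncard ≤ 1 := by
  have h : ({z | dl w z ≠ 0} : Set (V × Bool)) ⊆ {w} := fun z hz => dl_ne hz
  exact (Set.ncard_le_ncard h (Set.toFinite _)).trans (Set.ncard_singleton w).le

lemma supp_mu {x : V → V → ℝ} {gh : V × Bool → V × Bool → ℝ} {de eps : ℝ} {ta Z kap : ℕ}
    (h1 : ∀ u, ({v | x u v ≠ 0} : Set V).ncard ≤ kap)
    (h2 : ∀ v, ({u | x u v ≠ 0} : Set V).ncard ≤ kap) (hg : GhOk (mat x) gh de eps ta Z)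
    (w : V × Bool) :
    ({z | mu (mat x) gh w z ≠ 0} : Set (V × Bool)).ncard ≤ Z + kap * Z + 1 := by
  have h : ({z | mu (mat x) gh w z ≠ 0} : Set (V × Bool)) ⊆
      ({z | gh w z ≠ 0} ∪ {z | ∃ w', mat x w w' ≠ 0 ∧ gh w' z ≠ 0}) ∪ {w} := by
    intro z hz
    rcases mu_ne hz with h | h | h
    · exact Or.inl (Or.inl h)
    · exact Or.inl (Or.inr h)
    · exact Or.inr h
  refine (Set.ncard_le_ncard h (Set.toFinite _)).trans ((Set.ncard_union_le _ _).trans ?_)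
  refine Nat.add_le_add ((Set.ncard_union_le _ _).trans (Nat.add_le_add (hg.row w) ?_))
    (Set.ncard_singleton w).le
  exact cnt_le {w' | mat x w w' ≠ 0} (fun w' z => gh w' z ≠ 0) kap Z (mat_row_ncard h1 h2 w)
    (fun w' _ => hg.row w') _ fun z hz => hz

end

/-- ASP1. -/
theorem asp1 : Asp1Stmt := by
  intro V _ _ x gh de eps ta Z kap h1 h2 hg j
  rcases j with w | w | ⟨w, w'⟩ | w | w
  · refine (arcs_touch h1 h2 _ _ (supp_mulVec h1 h2 _ _ (supp_mu h1 h2 hg w)) _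
      fun a ha => ⟨ha.1, grad_ne ha.2⟩).trans ?_
    unfold KK1
    nlinarith [Nat.zero_le (kap ^ 2 * Z), Nat.zero_le (kap ^ 2)]
  · refine (arcs_touch h1 h2 _ _ (supp_mulVec h1 h2 _ _ (hg.row w)) _
      fun a ha => ⟨ha.1, grad_ne ha.2⟩).trans ?_
    unfold KK1
    nlinarith [Nat.zero_le (kap ^ 2 * Z), Nat.zero_le (kap ^ 2), Nat.zero_le (kap ^ 3 * Z)]
  · have h3 : ({z | (gh w - gh w') z ≠ 0} : Set (V × Bool)).ncard ≤ Z + Z := by
      have h : ({z | (gh w - gh w') z ≠ 0} : Set (V × Bool)) ⊆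
          {z | gh w z ≠ 0} ∪ {z | gh w' z ≠ 0} := by
        intro z hz
        by_contra hc
        simp only [Set.mem_union, Set.mem_ofPred_eq, not_or, not_not] at hc
        exact hz (by simp [hc.1, hc.2])
      exact (Set.ncard_le_ncard h (Set.toFinite _)).trans
        ((Set.ncard_union_le _ _).trans (Nat.add_le_add (hg.row w) (hg.row w')))
    refine (arcs_touch h1 h2 _ _ (supp_mulVec h1 h2 _ _ h3) _
      fun a ha => ⟨ha.1, ?_⟩).trans ?_
    · have h4 := ha.2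
      by_cases h5 : mat x w w' ≠ 0
      · simp only [kpA, h5, if_true, ne_eq, not_false_eq_true] at h4
        exact grad_ne h4
      · simp [kpA, h5] at h4
    · unfold KK1
      nlinarith [Nat.zero_le (kap ^ 2 * Z), Nat.zero_le (kap ^ 2), Nat.zero_le (kap ^ 3 * Z)]
  · have h3 : ({z | cc (mat x) gh w z ≠ 0} : Set (V × Bool)).ncard ≤ kap := by
      refine (Set.ncard_le_ncard (fun z hz => ?_) (Set.toFinite _)).trans
        (mat_row_ncard h1 h2 w)
      exact left_ne_zero_of_mul hz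
    refine (arcs_touch h1 h2 _ _ h3 _ fun a ha => ⟨ha.1, plu_ne ha.2⟩).trans ?_
    unfold KK1
    nlinarith [Nat.zero_le (kap ^ 2 * Z), Nat.zero_le (kap ^ 2), Nat.zero_le (kap ^ 3 * Z)]
  · refine (arcs_touch h1 h2 _ _ (supp_mulVec h1 h2 _ _ (supp_dl w)) _
      fun a ha => ⟨ha.1, plu_ne ha.2⟩).trans ?_
    unfold KK1
    nlinarith [Nat.zero_le (kap ^ 2 * Z), Nat.zero_le (kap ^ 2), Nat.zero_le (kap ^ 3 * Z)]

section

variable {V : Type} [Fintype V] [DecidableEq V]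

/-- Indices that reach the node `b` through one step. -/
lemma mult {x : V → V → ℝ} {kap : ℕ} (h1 : ∀ u, ({v | x u v ≠ 0} : Set V).ncard ≤ kap)
    (h2 : ∀ v, ({u | x u v ≠ 0} : Set V).ncard ≤ kap) {ι : Type} [Finite ι]
    (R : V × Bool → ι → Prop) (n : ℕ) (hR : ∀ z, ({j | R z j} : Set ι).ncard ≤ n)
    (b : V × Bool) (T : Set ι) (hT : ∀ j ∈ T, ∃ z, mat x b z ≠ 0 ∧ R z j) :
    T.ncard ≤ kap * n :=
  cnt_le {z | mat x b z ≠ 0} R kap n (mat_row_ncard h1 h2 b) (fun z _ => hR z) T hT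

lemma two {ι : Type} [Finite ι] (S T1 T2 : Set ι) (n : ℕ) (h : S ⊆ T1 ∪ T2)
    (h1 : T1.ncard ≤ n) (h2 : T2.ncard ≤ n) : S.ncard ≤ 2 * n :=
  ((Set.ncard_le_ncard h (Set.toFinite _)).trans (Set.ncard_union_le _ _)).trans (by omega)

end

/-- ASP2. -/
theorem asp2 : Asp2Stmt := by
  intro V _ _ x gh de eps ta Z kap h1 h2 hg a _
  obtain ⟨u, v⟩ := a
  -- neighbours in the column
  have hcol : ∀ z : V × Bool,
      ({w | ∃ w', mat x w w' ≠ 0 ∧ gh w' z ≠ 0} : Set (V × Bool)).ncard ≤ 2 * Z * kap :=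
    fun z => cnt_le {w' | gh w' z ≠ 0} (fun w' w => mat x w w' ≠ 0) (2 * Z) kap (hg.col z)
      (fun w' _ => by
        have := mat_row_ncard h1 h2 w'
        simpa only [mat_symm x w'] using this) _
      fun w ⟨w', hw1, hw2⟩ => ⟨w', hw2, hw1⟩
  have hmu : ∀ z : V × Bool, ({w | mu (mat x) gh w z ≠ 0} : Set (V × Bool)).ncard ≤
      2 * Z + 2 * Z * kap + 1 := by
    intro z
    have h : ({w | mu (mat x) gh w z ≠ 0} : Set (V × Bool)) ⊆
        ({w | gh w z ≠ 0} ∪ {w | ∃ w', mat x w w' ≠ 0 ∧ gh w' z ≠ 0}) ∪ {z} := by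
      intro w hw
      rcases mu_ne hw with h | h | h
      · exact Or.inl (Or.inl h)
      · exact Or.inl (Or.inr h)
      · exact Or.inr h.symm
    refine (Set.ncard_le_ncard h (Set.toFinite _)).trans ((Set.ncard_union_le _ _).trans ?_)
    exact Nat.add_le_add ((Set.ncard_union_le _ _).trans (Nat.add_le_add (hg.col z) (hcol z)))
      (Set.ncard_singleton z).le
  have hpair : ∀ z : V × Bool, ({p | mat x p.1 p.2 ≠ 0 ∧ (gh p.1 z ≠ 0 ∨ gh p.2 z ≠ 0)} :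
      Set ((V × Bool) × (V × Bool))).ncard ≤ 2 * (2 * Z * kap) := by
    intro z
    refine two _ {p | gh p.1 z ≠ 0 ∧ mat x p.1 p.2 ≠ 0} {p | gh p.2 z ≠ 0 ∧ mat x p.1 p.2 ≠ 0} _
      (fun p hp => hp.2.imp (fun h => ⟨h, hp.1⟩) (fun h => ⟨h, hp.1⟩)) ?_ ?_
    · refine cnt_le {w | gh w z ≠ 0} (fun w p => p.1 = w ∧ mat x p.1 p.2 ≠ 0) (2 * Z) kap
        (hg.col z) (fun w _ => ?_) _ fun p hp => ⟨p.1, hp.1, rfl, hp.2⟩
      have h : ({p | p.1 = w ∧ mat x p.1 p.2 ≠ 0} : Set ((V × Bool) × (V × Bool))) ⊆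
          (fun w' => (w, w')) '' {w' | mat x w w' ≠ 0} := by
        rintro ⟨p1, p2⟩ ⟨rfl, hp⟩
        exact ⟨p2, hp, rfl⟩
      exact ((Set.ncard_le_ncard h (Set.toFinite _)).trans
        (Set.ncard_image_le (Set.toFinite _))).trans (mat_row_ncard h1 h2 w)
    · refine cnt_le {w | gh w z ≠ 0} (fun w p => p.2 = w ∧ mat x p.1 p.2 ≠ 0) (2 * Z) kap
        (hg.col z) (fun w _ => ?_) _ fun p hp => ⟨p.2, hp.1, rfl, hp.2⟩
      have h : ({p | p.2 = w ∧ mat x p.1 p.2 ≠ 0} : Set ((V × Bool) × (V × Bool))) ⊆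
          (fun w' => (w', w)) '' {w' | mat x w w' ≠ 0} := by
        rintro ⟨p1, p2⟩ ⟨rfl, hp⟩
        exact ⟨p1, by rw [Set.mem_ofPred_eq, mat_symm]; exact hp, rfl⟩
      exact ((Set.ncard_le_ncard h (Set.toFinite _)).trans
        (Set.ncard_image_le (Set.toFinite _))).trans (mat_row_ncard h1 h2 w)
  -- the five classes
  have c1 : ({w | kpA x gh (.inl w) u v ≠ 0} : Set (V × Bool)).ncard ≤
      2 * (kap * (2 * Z + 2 * Z * kap + 1)) :=
    two _ {w | (mat x *ᵥ mu (mat x) gh w) (u, true) ≠ 0}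
      {w | (mat x *ᵥ mu (mat x) gh w) (v, false) ≠ 0} _ (fun w hw => grad_ne hw)
      (mult h1 h2 (fun z w => mu (mat x) gh w z ≠ 0) _ hmu (u, true) _ fun w hw => mulVec_ne hw)
      (mult h1 h2 (fun z w => mu (mat x) gh w z ≠ 0) _ hmu (v, false) _ fun w hw => mulVec_ne hw)
  have c2 : ({w | kpA x gh (.inr (.inl w)) u v ≠ 0} : Set (V × Bool)).ncard ≤
      2 * (kap * (2 * Z)) :=
    two _ {w | (mat x *ᵥ gh w) (u, true) ≠ 0}
      {w | (mat x *ᵥ gh w) (v, false) ≠ 0} _ (fun w hw => grad_ne hw)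
      (mult h1 h2 (fun z w => gh w z ≠ 0) _ hg.col (u, true) _ fun w hw => mulVec_ne hw)
      (mult h1 h2 (fun z w => gh w z ≠ 0) _ hg.col (v, false) _ fun w hw => mulVec_ne hw)
  have hsub : ∀ (p : (V × Bool) × (V × Bool)) (z : V × Bool), (gh p.1 - gh p.2) z ≠ 0 →
      gh p.1 z ≠ 0 ∨ gh p.2 z ≠ 0 := by
    intro p z hz
    by_contra hc
    push Not at hc
    exact hz (by simp [hc.1, hc.2])
  have c3 : ({p | kpA x gh (.inr (.inr (.inl p))) u v ≠ 0} :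
      Set ((V × Bool) × (V × Bool))).ncard ≤ 2 * (kap * (2 * (2 * Z * kap))) := by
    refine two _ {p | mat x p.1 p.2 ≠ 0 ∧ (mat x *ᵥ (gh p.1 - gh p.2)) (u, true) ≠ 0}
      {p | mat x p.1 p.2 ≠ 0 ∧ (mat x *ᵥ (gh p.1 - gh p.2)) (v, false) ≠ 0} _ (fun p hp => ?_)
      (mult h1 h2 (fun z p => mat x p.1 p.2 ≠ 0 ∧ (gh p.1 z ≠ 0 ∨ gh p.2 z ≠ 0)) _ hpair
        (u, true) _ fun p hp => ?_)
      (mult h1 h2 (fun z p => mat x p.1 p.2 ≠ 0 ∧ (gh p.1 z ≠ 0 ∨ gh p.2 z ≠ 0)) _ hpair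
        (v, false) _ fun p hp => ?_)
    · obtain ⟨w, w'⟩ := p
      by_cases h5 : mat x w w' ≠ 0
      · have h4 : kpA x gh (.inr (.inr (.inl (w, w')))) u v ≠ 0 := hp
        simp only [kpA, h5, if_true, ne_eq, not_false_eq_true] at h4
        exact (grad_ne h4).imp (fun h => ⟨h5, h⟩) (fun h => ⟨h5, h⟩)
      · have h4 : kpA x gh (.inr (.inr (.inl (w, w')))) u v ≠ 0 := hp
        simp [kpA, h5] at h4
    · obtain ⟨z, hz1, hz2⟩ := mulVec_ne hp.2
      exact ⟨z, hz1, hp.1, hsub p z hz2⟩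
    · obtain ⟨z, hz1, hz2⟩ := mulVec_ne hp.2
      exact ⟨z, hz1, hp.1, hsub p z hz2⟩
  have hcc : ∀ b : V × Bool, ({w | cc (mat x) gh w b ≠ 0} : Set (V × Bool)).ncard ≤ kap := by
    intro b
    refine (Set.ncard_le_ncard (fun w hw => ?_) (Set.toFinite _)).trans (mat_row_ncard h1 h2 b)
    rw [Set.mem_ofPred_eq, mat_symm]
    exact left_ne_zero_of_mul hw
  have c4 : ({w | kpA x gh (.inr (.inr (.inr (.inl w)))) u v ≠ 0} : Set (V × Bool)).ncard ≤
      2 * kap :=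
    two _ {w | cc (mat x) gh w (u, true) ≠ 0} {w | cc (mat x) gh w (v, false) ≠ 0} _
      (fun w hw => plu_ne hw) (hcc _) (hcc _)
  have hdl : ∀ b : V × Bool, ({w | (mat x *ᵥ dl w) b ≠ 0} : Set (V × Bool)).ncard ≤ kap := by
    intro b
    refine (Set.ncard_le_ncard (fun w hw => ?_) (Set.toFinite _)).trans (mat_row_ncard h1 h2 b)
    obtain ⟨z, hz1, hz2⟩ := mulVec_ne hw
    rw [← dl_ne hz2]
    exact hz1
  have c5 : ({w | kpA x gh (.inr (.inr (.inr (.inr w)))) u v ≠ 0} : Set (V × Bool)).ncard ≤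
      2 * kap :=
    two _ {w | (mat x *ᵥ dl w) (u, true) ≠ 0} {w | (mat x *ᵥ dl w) (v, false) ≠ 0} _
      (fun w hw => plu_ne hw) (hdl _) (hdl _)
  -- assembly
  have hall : ({j | kpA x gh j u v ≠ 0} : Set (JJ V)) ⊆
      ((((Sum.inl '' {w | kpA x gh (.inl w) u v ≠ 0}) ∪
      ((fun w => Sum.inr (Sum.inl w)) '' {w | kpA x gh (.inr (.inl w)) u v ≠ 0})) ∪
      ((fun w => Sum.inr (Sum.inr (Sum.inl w))) '' {w | kpA x gh (.inr (.inr (.inl w))) u v ≠ 0})) ∪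
      ((fun w => Sum.inr (Sum.inr (Sum.inr (Sum.inl w)))) ''
        {w | kpA x gh (.inr (.inr (.inr (.inl w)))) u v ≠ 0})) ∪
      ((fun w => Sum.inr (Sum.inr (Sum.inr (Sum.inr w)))) ''
        {w | kpA x gh (.inr (.inr (.inr (.inr w)))) u v ≠ 0}) := by
    intro j hj
    rcases j with w | w | p | w | w
    · exact Or.inl (Or.inl (Or.inl (Or.inl ⟨w, hj, rfl⟩)))
    · exact Or.inl (Or.inl (Or.inl (Or.inr ⟨w, hj, rfl⟩)))
    · exact Or.inl (Or.inl (Or.inr ⟨p, hj, rfl⟩))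
    · exact Or.inl (Or.inr ⟨w, hj, rfl⟩)
    · exact Or.inr ⟨w, hj, rfl⟩
  have hb : ({j | kpA x gh j u v ≠ 0} : Set (JJ V)).ncard ≤
      2 * (kap * (2 * Z + 2 * Z * kap + 1)) + 2 * (kap * (2 * Z)) +
        2 * (kap * (2 * (2 * Z * kap))) + 2 * kap + 2 * kap := by
    refine (Set.ncard_le_ncard hall (Set.toFinite _)).trans ?_
    refine (Set.ncard_union_le _ _).trans (Nat.add_le_add ?_
      ((Set.ncard_image_le (Set.toFinite _)).trans c5))
    refine (Set.ncard_union_le _ _).trans (Nat.add_le_add ?_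
      ((Set.ncard_image_le (Set.toFinite _)).trans c4))
    refine (Set.ncard_union_le _ _).trans (Nat.add_le_add ?_
      ((Set.ncard_image_le (Set.toFinite _)).trans c3))
    exact (Set.ncard_union_le _ _).trans (Nat.add_le_add
      ((Set.ncard_image_le (Set.toFinite _)).trans c1)
      ((Set.ncard_image_le (Set.toFinite _)).trans c2))
  refine hb.trans ?_
  unfold KK2
  nlinarith [Nat.zero_le (kap * Z), Nat.zero_le (kap ^ 2 * Z)]

end Pool.Agent.NIB.H46
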